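import Mathlib

open Metric
open scoped ContDiff

namespace Pool.Agent.Helper56.MCF

section

variable {W E V : Type*} [NormedAddCommGroup W] [InnerProductSpace ℝ W]
  [NormedAddCommGroup E] [NormedSpace ℝ E] [NormedAddCommGroup V] [NormedSpace ℝ V]

/-- the factor `1 / (‖w‖ ^ 2 + 4)` -/
noncomputable def tau (w : W) : ℝ := (‖w‖ ^ 2 + 4)⁻¹

/-- inverse stereographic map through a linear map `U`, pole `v` -/
noncomputable def psi (U : W →L[ℝ] E) (v : E) (w : W) : E :=
  tau w • (4 : ℝ) • U w + tau w • (‖w‖ ^ 2 - 4) • v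

/-- its derivative -/
noncomputable def dpsi (U : W →L[ℝ] E) (v : E) (w : W) : W →L[ℝ] E :=
  (4 * tau w) • U + (innerSL ℝ w).smulRight ((-8 * tau w ^ 2) • U w)
    + (innerSL ℝ w).smulRight ((16 * tau w ^ 2) • v)

lemma hasFDerivAt_tau (w : W) :
    HasFDerivAt (tau : W → ℝ) ((-2 * tau w ^ 2) • innerSL ℝ w) w := by
  have h1 : HasFDerivAt (fun w : W => ‖w‖ ^ 2 + 4) (2 • innerSL ℝ w) w := by
    have := (hasStrictFDerivAt_norm_sq w).hasFDerivAt
    exact this.add_const _
  have h0 : (‖w‖ ^ 2 + 4 : ℝ) ≠ 0 := by positivity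
  have h2 := (hasDerivAt_inv h0).comp_hasFDerivAt w h1
  refine HasFDerivAt.congr_fderiv (f := tau) h2 ?_
  ext a
  simp [tau]
  field_simp

lemma hasFDerivAt_psi (U : W →L[ℝ] E) (v : E) (w : W) :
    HasFDerivAt (psi U v) (dpsi U v w) w := by
  have e : psi U v = fun w => (4 * tau w) • U w + (1 - 8 * tau w) • v := by
    funext w
    have h0 : (‖w‖ ^ 2 + 4 : ℝ) ≠ 0 := by positivity
    have h1 : tau w * (‖w‖ ^ 2 - 4) = 1 - 8 * tau w := by
      rw [tau]; field_simp; ring
    rw [psi, smul_smul, smul_smul, h1, mul_comm (tau w) 4]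
  rw [e]
  have ht := hasFDerivAt_tau w
  have h1 : HasFDerivAt (fun w => (4 * tau w) • U w)
      ((4 * tau w) • U + (((4 : ℝ) • ((-2 * tau w ^ 2) • innerSL ℝ w)).smulRight (U w))) w :=
    (ht.const_mul 4).smul U.hasFDerivAt
  have h2 : HasFDerivAt (fun w => (1 - 8 * tau w) • v)
      ((-((8 : ℝ) • ((-2 * tau w ^ 2) • innerSL ℝ w))).smulRight v) w := by
    have := ((ht.const_mul 8).const_sub 1).smul_const v
    exact this
  refine HasFDerivAt.congr_fderiv (h1.add h2) ?_
  ext a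
  simp only [dpsi, ContinuousLinearMap.add_apply, ContinuousLinearMap.smul_apply,
    ContinuousLinearMap.smulRight_apply, ContinuousLinearMap.neg_apply, innerSL_apply_apply,
    smul_eq_mul]
  module

omit [InnerProductSpace ℝ W] in
lemma tau_zero : tau (0 : W) = 1 / 4 := by simp [tau]

lemma psi_zero (U : W →L[ℝ] E) (v : E) : psi U v 0 = -v := by
  simp [psi, tau_zero, smul_smul]

lemma dpsi_zero (U : W →L[ℝ] E) (v : E) (a : W) : dpsi U v 0 a = U a := by
  simp [dpsi, tau_zero]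

lemma hasFDerivAt_dpsi (U : W →L[ℝ] E) (v : E) (a : W) :
    HasFDerivAt (fun w => dpsi U v w a) ((innerSL ℝ a).smulRight v) (0 : W) := by
  have ht : HasFDerivAt (tau : W → ℝ) (0 : W →L[ℝ] ℝ) (0 : W) := by
    refine HasFDerivAt.congr_fderiv (hasFDerivAt_tau (0 : W)) ?_
    ext a; simp
  have ha : HasFDerivAt (fun w : W => inner ℝ w a) (innerSL ℝ a) (0 : W) := by
    have h := (innerSL ℝ a).hasFDerivAt (x := (0 : W))
    refine h.congr_of_eventuallyEq (Filter.Eventually.of_forall fun w => ?_)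
    simp [real_inner_comm]
  have h1 : HasFDerivAt (fun w : W => (4 * tau w) • U a) (0 : W →L[ℝ] E) 0 := by
    refine HasFDerivAt.congr_fderiv ((ht.const_mul 4).smul_const (U a)) ?_
    ext a; simp
  have ht2 : HasFDerivAt (fun w : W => -8 * tau w ^ 2) (0 : W →L[ℝ] ℝ) 0 := by
    refine HasFDerivAt.congr_fderiv ((ht.pow 2).const_mul (-8)) ?_
    ext a; simp
  have ht3 : HasFDerivAt (fun w : W => 16 * tau w ^ 2) (0 : W →L[ℝ] ℝ) 0 := by
    refine HasFDerivAt.congr_fderiv ((ht.pow 2).const_mul 16) ?_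
    ext a; simp
  have h2 : HasFDerivAt (fun w : W => inner ℝ w a • (-8 * tau w ^ 2) • U w) (0 : W →L[ℝ] E) 0 := by
    refine HasFDerivAt.congr_fderiv (ha.smul (ht2.smul U.hasFDerivAt)) ?_
    ext b; simp
  have h3 : HasFDerivAt (fun w : W => inner ℝ w a • (16 * tau w ^ 2) • v)
      ((innerSL ℝ a).smulRight v) 0 := by
    refine HasFDerivAt.congr_fderiv (ha.smul (ht3.smul_const v)) ?_
    ext b
    simp [tau_zero, smul_smul]
    norm_num
  have h4 := (h1.add h2).add h3
  refine HasFDerivAt.congr_fderiv (f := fun w => dpsi U v w a) h4 ?_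
  ext b; simp

variable (B : E →L[ℝ] E →L[ℝ] V)

lemma fderiv_quad (U : W →L[ℝ] E) (v : E) (w a : W) :
    fderiv ℝ (fun w => B (psi U v w) (psi U v w)) w a =
      B (psi U v w) (dpsi U v w a) + B (dpsi U v w a) (psi U v w) := by
  rw [(B.hasFDerivAt_of_bilinear (hasFDerivAt_psi U v w) (hasFDerivAt_psi U v w)).fderiv]
  simp

lemma fderiv_quad_zero (U : W →L[ℝ] E) (v : E) (a : W) :
    fderiv ℝ (fun w => B (psi U v w) (psi U v w)) 0 a = - B v (U a) - B (U a) v := by
  rw [fderiv_quad, psi_zero, dpsi_zero]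
  simp
  abel

lemma fderiv_fderiv_quad (U : W →L[ℝ] E) (v : E) (a b : W) :
    fderiv ℝ (fun w => fderiv ℝ (fun w => B (psi U v w) (psi U v w)) w a) 0 b =
      B (U b) (U a) + B (U a) (U b) - (2 * inner ℝ a b) • B v v := by
  have e : (fun w => fderiv ℝ (fun w => B (psi U v w) (psi U v w)) w a) =
      fun w => B (psi U v w) (dpsi U v w a) + B (dpsi U v w a) (psi U v w) := by
    funext w; exact fderiv_quad B U v w a
  rw [e]
  have h1 := B.hasFDerivAt_of_bilinear (hasFDerivAt_psi U v 0) (hasFDerivAt_dpsi U v a)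
  have h2 := B.hasFDerivAt_of_bilinear (hasFDerivAt_dpsi U v a) (hasFDerivAt_psi U v 0)
  have h3 := (h1.add h2).fderiv
  have h4 : fderiv ℝ (fun w => B (psi U v w) (dpsi U v w a) + B (dpsi U v w a) (psi U v w)) 0 b
      = _ := DFunLike.congr_fun h3 b
  rw [h4]
  simp [psi_zero, dpsi_zero]
  module

end

end Pool.Agent.Helper56.MCF
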