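import Mathlib

open Manifold Set Filter Topology Metric
open scoped ContDiff

namespace Pool.Agent.Helper56.MCF

/-- The Euclidean space `ℝ^(n+q+1)`; the sphere `F^{n+q}(c)` is the set of its vectors `y`
with `c * ‖y‖ ^ 2 = 1`. -/
abbrev Amb (n q : ℕ) := EuclideanSpace ℝ (Fin (n + q + 1))

/-- `ℝ³`. -/
abbrev E3 := EuclideanSpace ℝ (Fin (2 + 1))

/-- The unit sphere in `ℝ³`, a closed connected smooth surface. -/
abbrev S2 := sphere (0 : E3) 1

/-- The pinching function `α` of the problem. -/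
noncomputable def alpha (n : ℕ) (c x : ℝ) : ℝ :=
  n * c + n / (2 * (n - 1)) * x - (n - 2) / (2 * (n - 1)) * √(x ^ 2 + 4 * (n - 1) * c * x)

section

variable {n q : ℕ} {M : Type} [TopologicalSpace M] [ChartedSpace (EuclideanSpace ℝ (Fin n)) M]

/-- The map `F` read in the chart of `M` at `p`. -/
noncomputable def rd (F : M → Amb n q) (p : M) : EuclideanSpace ℝ (Fin n) → Amb n q :=
  F ∘ (chartAt (EuclideanSpace ℝ (Fin n)) p).symm

/-- The coordinates of `p` in the chart of `M` at `p`. -/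
noncomputable def pt (p : M) : EuclideanSpace ℝ (Fin n) :=
  chartAt (EuclideanSpace ℝ (Fin n)) p p

/-- First derivatives (in the coordinate directions) of `F` at `p` in the chart at `p`. -/
noncomputable def d1 (F : M → Amb n q) (p : M) (i : Fin n) : Amb n q :=
  fderiv ℝ (rd F p) (pt p) (EuclideanSpace.single i 1)

/-- Second derivatives (in the coordinate directions) of `F` at `p` in the chart at `p`. -/
noncomputable def d2 (F : M → Amb n q) (p : M) (i j : Fin n) : Amb n q :=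
  fderiv ℝ (fun y => fderiv ℝ (rd F p) y (EuclideanSpace.single i 1)) (pt p)
    (EuclideanSpace.single j 1)

/-- Normal space of `F` at `p` inside the sphere: the vectors orthogonal to the tangent space of
`F` at `p` and to the position vector `F p`. -/
noncomputable def normalSpace (F : M → Amb n q) (p : M) : Submodule ℝ (Amb n q) :=
  (Submodule.span ℝ (range (d1 F p)) ⊔ Submodule.span ℝ {F p})ᗮ

/-- Coefficients `A(∂_i,∂_j)` of the second fundamental form of `F` (as a map into the sphere). -/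
noncomputable def A (F : M → Amb n q) (p : M) (i j : Fin n) : Amb n q :=
  (normalSpace F p).starProjection (d2 F p i j)

/-- The induced metric. -/
noncomputable def g (F : M → Amb n q) (p : M) : Matrix (Fin n) (Fin n) ℝ :=
  Matrix.of fun i j => inner ℝ (d1 F p i) (d1 F p j)

/-- The mean curvature vector `H = tr A`. -/
noncomputable def H (F : M → Amb n q) (p : M) : Amb n q :=
  ∑ i, ∑ j, (g F p)⁻¹ i j • A F p i j

/-- `|A|²`. -/
noncomputable def sqA (F : M → Amb n q) (p : M) : ℝ :=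
  ∑ i, ∑ j, ∑ k, ∑ l, (g F p)⁻¹ i k * (g F p)⁻¹ j l * inner ℝ (A F p i j) (A F p k l)

/-- `F` is smooth with injective differential. -/
def IsImm (F : M → Amb n q) : Prop :=
  ContMDiff (𝓡 n) 𝓘(ℝ, Amb n q) ∞ F ∧ ∀ p, LinearIndependent ℝ (d1 F p)

/-- `F` is a smooth immersion into the sphere `F^{n+q}(c)`. -/
def IsImmSphere (c : ℝ) (F : M → Amb n q) : Prop :=
  IsImm F ∧ ∀ p, c * ‖F p‖ ^ 2 = 1

/-- The pinching condition `|A|² < α(|H|²)`. -/
def Pinched (c : ℝ) (F : M → Amb n q) : Prop :=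
  ∀ p, sqA F p < alpha n c (‖H F p‖ ^ 2)

/-- `F` is a mean curvature flow on `[0,T)` (`0 < T ≤ ∞`) with initial value `F₀`. -/
def IsFlow (c : ℝ) (F₀ : M → Amb n q) (T : EReal) (F : ℝ → M → Amb n q) : Prop :=
  0 < T ∧ F 0 = F₀ ∧
  ContMDiffOn (𝓘(ℝ, ℝ).prod (𝓡 n)) 𝓘(ℝ, Amb n q) ∞ (fun z : ℝ × M => F z.1 z.2)
    ({t : ℝ | 0 ≤ t ∧ (t : EReal) < T} ×ˢ univ) ∧
  ∀ t : ℝ, 0 ≤ t → (t : EReal) < T → IsImmSphere c (F t) ∧
    ∀ x, HasDerivWithinAt (fun s => F s x) (H (F t) x) (Ici 0) t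

/-- `G t` converges to `G'` smoothly along `l`: in every chart all derivatives converge locally
uniformly. -/
def SmoothTendsto (G : ℝ → M → Amb n q) (l : Filter ℝ) (G' : M → Amb n q) : Prop :=
  ∀ (p : M) (k : ℕ), TendstoLocallyUniformlyOn
    (fun t => iteratedFDeriv ℝ k (rd (G t) p)) (iteratedFDeriv ℝ k (rd G' p)) l
    (chartAt (EuclideanSpace ℝ (Fin n)) p).target

/-- `F t` converges to a round point as `t → T`: it shrinks to a point `y`, and for suitable
factors `s t > 0` the rescalings `s t • (F t - y)` converge smoothly to an immersion whose image is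
a round `n`-sphere (of an `(n+1)`-dimensional affine subspace). -/
def ToRoundPoint (T : ℝ) (F : ℝ → M → Amb n q) : Prop :=
  ∃ y : Amb n q, TendstoUniformly F (fun _ => y) (𝓝[<] T) ∧
    ∃ (s : ℝ → ℝ) (G : M → Amb n q), (∀ t, 0 < s t) ∧ IsImm G ∧
      (∃ (W : Submodule ℝ (Amb n q)) (z : Amb n q) (r : ℝ), Module.finrank ℝ W = n + 1 ∧ 0 < r ∧
        range G = {x | x - z ∈ W ∧ ‖x - z‖ = r}) ∧
      SmoothTendsto (fun t x => s t • (F t x - y)) (𝓝[<] T) G

/-- `F t` converges smoothly to a totally geodesic immersion as `t → ∞`. -/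
def ToTotallyGeodesic (c : ℝ) (F : ℝ → M → Amb n q) : Prop :=
  ∃ G : M → Amb n q, IsImmSphere c G ∧ (∀ p i j, A G p i j = 0) ∧ SmoothTendsto F atTop G

/-- The conclusion of Q1 for the initial value `F₀`: there is a unique solution on a maximal
interval `[0,T)`, and it satisfies (i) or (ii). -/
def Dichotomy (c : ℝ) (F₀ : M → Amb n q) : Prop :=
  ∃ (T : EReal) (F : ℝ → M → Amb n q), IsFlow c F₀ T F ∧
    (∀ (T' : EReal) (F' : ℝ → M → Amb n q), IsFlow c F₀ T' F' →
      T' ≤ T ∧ ∀ t : ℝ, 0 ≤ t → (t : EReal) < T' → F' t = F t) ∧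
    ((∃ T₀ : ℝ, T = (T₀ : EReal) ∧ ToRoundPoint T₀ F) ∨ (T = ⊤ ∧ ToTotallyGeodesic c F))

end

/-- Q1 for the given values of `n`, `q`, `c` (for connected closed manifolds `M`). -/
def Statement (n q : ℕ) (c : ℝ) : Prop :=
  ∀ (M : Type) [TopologicalSpace M] [T2Space M] [CompactSpace M] [ConnectedSpace M]
    [ChartedSpace (EuclideanSpace ℝ (Fin n)) M] [IsManifold (𝓡 n) ∞ M] (F₀ : M → Amb n q),
    IsImmSphere c F₀ → Pinched c F₀ → Dichotomy c F₀

end Pool.Agent.Helper56.MCF
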