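import Mathlib
import Pool.Agent.Helper56.MCF.Defs
import Pool.Agent.Helper56.MCF.Calc

open Manifold Set Filter Topology Metric
open scoped ContDiff

namespace Pool.Agent.Helper56.MCF

theorem factE3 : Fact (Module.finrank ℝ E3 = 2 + 1) := ⟨finrank_euclideanSpace_fin⟩

attribute [local instance] factE3

section quad

variable {q : ℕ} (B : E3 →L[ℝ] E3 →L[ℝ] Amb 2 q)

/-- the quadratic map on the sphere -/
noncomputable def ver (x : S2) : Amb 2 q := B x x

/-- the isometry of the stereographic chart at `p` -/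
noncomputable def UI (p : S2) : (ℝ ∙ ((-p : S2) : E3))ᗮ ≃ₗᵢ[ℝ] EuclideanSpace ℝ (Fin 2) :=
  (OrthonormalBasis.fromOrthogonalSpanSingleton (𝕜 := ℝ) 2
      (ne_zero_of_mem_unit_sphere (-p : S2))).repr

/-- the linear map in the stereographic chart at `p` -/
noncomputable def UU (p : S2) : EuclideanSpace ℝ (Fin 2) →L[ℝ] E3 :=
  (ℝ ∙ ((-p : S2) : E3))ᗮ.subtypeL.comp
    ((UI p).symm.toContinuousLinearEquiv :
        EuclideanSpace ℝ (Fin 2) →L[ℝ] (ℝ ∙ ((-p : S2) : E3))ᗮ)

lemma UU_apply (p : S2) (a : EuclideanSpace ℝ (Fin 2)) : UU p a = ((UI p).symm a : E3) := rfl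

lemma e_inner (i j : Fin 2) :
    inner ℝ (EuclideanSpace.single i (1 : ℝ)) (EuclideanSpace.single j (1 : ℝ)) =
      if i = j then (1 : ℝ) else 0 := by
  rw [EuclideanSpace.inner_single_left]
  by_cases hij : i = j
  · simp [hij]
  · have : j ≠ i := fun h => hij h.symm
    simp [hij]

lemma UU_inner (p : S2) (a b : EuclideanSpace ℝ (Fin 2)) :
    inner ℝ (UU p a) (UU p b) = inner ℝ a b := by
  rw [UU_apply, UU_apply, ← Submodule.coe_inner]
  exact (UI p).symm.inner_map_map a b

lemma UU_orth (p : S2) (a : EuclideanSpace ℝ (Fin 2)) : inner ℝ (UU p a) (p : E3) = 0 := by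
  have h := ((UI p).symm a).2
  rw [Submodule.mem_orthogonal_singleton_iff_inner_left] at h
  have h' : inner ℝ (UU p a) (-(p : E3)) = 0 := h
  rwa [inner_neg_right, neg_eq_zero] at h'

lemma chart_symm (p : S2) (w : EuclideanSpace ℝ (Fin 2)) :
    (((chartAt (EuclideanSpace ℝ (Fin 2)) p).symm w : S2) : E3) = psi (UU p) (-(p : E3)) w := by
  have h := stereographic'_symm_apply (n := 2) (-p : S2) w
  change ((stereographic' 2 (-p : S2)).symm w : E3) = _
  rw [h]
  change (‖((UI p).symm w : E3)‖ ^ 2 + 4)⁻¹ • (4 : ℝ) • ((UI p).symm w : E3) +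
    (‖((UI p).symm w : E3)‖ ^ 2 + 4)⁻¹ • (‖((UI p).symm w : E3)‖ ^ 2 - 4) • ((-p : S2) : E3) = _
  have hn : ‖((UI p).symm w : E3)‖ = ‖w‖ := by
    rw [← Submodule.coe_norm, LinearIsometryEquiv.norm_map]
  rw [hn, psi, UU_apply, tau]
  rfl

lemma psi_zero' (p : S2) : psi (UU p) (-(p : E3)) 0 = p := by rw [psi_zero]; simp

lemma pt_eq (p : S2) : pt (n := 2) p = 0 := by
  have h0 : (chartAt (EuclideanSpace ℝ (Fin 2)) p).symm 0 = p := by
    apply Subtype.ext
    rw [chart_symm, psi_zero']
  have h1 : (0 : EuclideanSpace ℝ (Fin 2)) ∈ (chartAt (EuclideanSpace ℝ (Fin 2)) p).target := by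
    change _ ∈ (stereographic' 2 (-p : S2)).target
    simp
  have := (chartAt (EuclideanSpace ℝ (Fin 2)) p).right_inv h1
  rw [h0] at this
  exact this

lemma rd_ver (p : S2) : rd (ver B) p =
    fun w => B (psi (UU p) (-(p : E3)) w) (psi (UU p) (-(p : E3)) w) := by
  funext w
  simp only [rd, Function.comp, ver, chart_symm]

/-- The identity satisfied by the (polarised) Veronese map. -/
def VerId (R2 : ℝ) : Prop :=
  ∀ X Y Z W : E3, inner ℝ (B X Y) (B Z W) =
    (3 * R2 / 2) * ((inner ℝ X Z * inner ℝ Y W + inner ℝ X W * inner ℝ Y Z) / 2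
      - inner ℝ X Y * inner ℝ Z W / 3)

variable {B}
variable (hsym : ∀ X Y, B X Y = B Y X)

include hsym

lemma d1_ver (p : S2) (i : Fin 2) :
    d1 (ver B) p i = (2 : ℝ) • B p (UU p (EuclideanSpace.single i 1)) := by
  rw [d1, pt_eq, rd_ver, fderiv_quad_zero, hsym (UU p _) (-(p : E3))]
  simp
  module

lemma d2_ver (p : S2) (i j : Fin 2) :
    d2 (ver B) p i j = (2 : ℝ) • B (UU p (EuclideanSpace.single i 1)) (UU p (EuclideanSpace.single j 1))
      - (if i = j then (2 : ℝ) else 0) • B p p := by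
  rw [d2, pt_eq, rd_ver, fderiv_fderiv_quad, hsym (UU p (EuclideanSpace.single j 1))]
  rw [e_inner]
  by_cases hij : i = j
  · simp [hij]; module
  · simp [hij]; module

omit hsym in
lemma norm_p (p : S2) : inner ℝ (p : E3) (p : E3) = 1 := by
  rw [real_inner_self_eq_norm_sq, norm_eq_of_mem_sphere p]; norm_num

omit hsym in
lemma inner_ee (p : S2) (i j : Fin 2) :
    inner ℝ (UU p (EuclideanSpace.single i 1)) (UU p (EuclideanSpace.single j 1)) =
      if i = j then (1 : ℝ) else 0 := by
  rw [UU_inner, e_inner]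

omit hsym in
lemma inner_pe (p : S2) (i : Fin 2) :
    inner ℝ (p : E3) (UU p (EuclideanSpace.single i 1)) = 0 := by
  rw [real_inner_comm, UU_orth]

variable {R2 : ℝ} (hid : VerId B R2)

omit hsym in
include hid in
lemma hB (X Y Z W : E3) : inner ℝ (B X Y) (B Z W) =
    (3 * R2 / 2) * ((inner ℝ X Z * inner ℝ Y W + inner ℝ X W * inner ℝ Y Z) / 2
      - inner ℝ X Y * inner ℝ Z W / 3) := hid X Y Z W

include hid

lemma g_ver (p : S2) (i j : Fin 2) : g (ver B) p i j = if i = j then 3 * R2 else 0 := by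
  simp only [g, Matrix.of_apply, d1_ver hsym, inner_smul_left, inner_smul_right, hB hid,
    norm_p, inner_ee, inner_pe, UU_orth]
  by_cases hij : i = j
  · simp [hij]; ring
  · simp [hij]

/-- the values of the second fundamental form -/
noncomputable def a' (B : E3 →L[ℝ] E3 →L[ℝ] Amb 2 q) (p : S2) (i j : Fin 2) : Amb 2 q :=
  (2 : ℝ) • B (UU p (EuclideanSpace.single i 1)) (UU p (EuclideanSpace.single j 1))
      + (if i = j then (1 : ℝ) else 0) • B p p

lemma a'_d1 (p : S2) (i j k : Fin 2) : inner ℝ (d1 (ver B) p k) (a' B p i j) = 0 := by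
  simp only [a', d1_ver hsym, inner_add_right, inner_smul_left, inner_smul_right, hB hid,
    norm_p, inner_pe, UU_orth, inner_ee]
  simp

lemma a'_p (p : S2) (i j : Fin 2) : inner ℝ (ver B p) (a' B p i j) = 0 := by
  simp only [a', ver, inner_add_right, inner_smul_right, hB hid,
    norm_p, inner_pe, UU_orth, inner_ee]
  by_cases hij : i = j
  · simp [hij]; ring
  · simp [hij]

lemma A_ver (p : S2) (i j : Fin 2) : A (ver B) p i j = a' B p i j := by
  rw [A]
  refine Submodule.eq_starProjection_of_mem_orthogonal ?_ ?_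
  · rw [normalSpace, Submodule.mem_orthogonal]
    intro u hu
    rw [Submodule.mem_sup] at hu
    obtain ⟨y, hy, z, hz, rfl⟩ := hu
    rw [inner_add_left]
    have h1 : inner ℝ y (a' B p i j) = 0 := by
      induction hy using Submodule.span_induction with
      | mem x hx => obtain ⟨k, rfl⟩ := hx; exact a'_d1 hsym hid p i j k
      | zero => simp
      | add x y _ _ hx hy => rw [inner_add_left, hx, hy, add_zero]
      | smul c x _ hx => rw [inner_smul_left, hx, mul_zero]
    have h2 : inner ℝ z (a' B p i j) = 0 := by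
      rw [Submodule.mem_span_singleton] at hz
      obtain ⟨c, rfl⟩ := hz
      rw [inner_smul_left, a'_p hsym hid, mul_zero]
    rw [h1, h2, add_zero]
  · rw [normalSpace]
    apply Submodule.le_orthogonal_orthogonal
    apply Submodule.mem_sup_right
    rw [Submodule.mem_span_singleton]
    refine ⟨if i = j then -3 else 0, ?_⟩
    rw [d2_ver hsym, a', ver]
    by_cases hij : i = j
    · simp only [hij, if_true]; module
    · simp only [hij, if_false]; module

variable (hR : 0 < R2)

include hR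

lemma g_inv (p : S2) (i j : Fin 2) :
    (g (ver B) p)⁻¹ i j = if i = j then (3 * R2)⁻¹ else 0 := by
  have h : g (ver B) p = (3 * R2) • (1 : Matrix (Fin 2) (Fin 2) ℝ) := by
    ext i j
    rw [g_ver hsym hid]
    simp [Matrix.one_apply]
  have h0 : (3 * R2 : ℝ) ≠ 0 := by positivity
  have h2 : (g (ver B) p)⁻¹ = (3 * R2)⁻¹ • (1 : Matrix (Fin 2) (Fin 2) ℝ) := by
    rw [h]
    apply Matrix.inv_eq_right_inv
    rw [smul_mul_smul_comm, mul_inv_cancel₀ h0, one_smul, one_mul]
  rw [h2]
  simp [Matrix.one_apply]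

omit hsym hR in
lemma trace_zero (p : S2) :
    B (UU p (EuclideanSpace.single 0 1)) (UU p (EuclideanSpace.single 0 1))
      + B (UU p (EuclideanSpace.single 1 1)) (UU p (EuclideanSpace.single 1 1)) + B p p = 0 := by
  rw [← inner_self_eq_zero (𝕜 := ℝ)]
  simp only [inner_add_left, inner_add_right, hB hid, norm_p, inner_pe, UU_orth, inner_ee]
  norm_num
  ring

lemma H_ver (p : S2) : H (ver B) p = 0 := by
  have ht := trace_zero hid p
  simp only [H, Fin.sum_univ_two, g_inv hsym hid hR, A_ver hsym hid, a']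
  simp only [Fin.isValue, if_true, one_smul, if_neg (by decide : ¬ (0 : Fin 2) = 1),
    if_neg (by decide : ¬ (1 : Fin 2) = 0), zero_smul, add_zero, zero_add]
  rw [← smul_add]
  have : ((2 : ℝ) • B (UU p (EuclideanSpace.single 0 1)) (UU p (EuclideanSpace.single 0 1)) + B p p
      + ((2 : ℝ) • B (UU p (EuclideanSpace.single 1 1)) (UU p (EuclideanSpace.single 1 1)) + B p p))
      = (2 : ℝ) • (B (UU p (EuclideanSpace.single 0 1)) (UU p (EuclideanSpace.single 0 1))
      + B (UU p (EuclideanSpace.single 1 1)) (UU p (EuclideanSpace.single 1 1)) + B p p) := by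
    module
  rw [this, ht, smul_zero, smul_zero]

lemma a'_inner (p : S2) (i j : Fin 2) : inner ℝ (a' B p i j) (a' B p i j) = 3 * R2 := by
  simp only [a', inner_add_left, inner_add_right, inner_smul_left, inner_smul_right, hB hid,
    norm_p, inner_pe, UU_orth, inner_ee]
  by_cases hij : i = j
  · simp [hij]; ring
  · have : ¬ j = i := fun h => hij h.symm
    simp [hij, this]; ring

lemma sqA_ver (p : S2) : sqA (ver B) p = 4 / (3 * R2) := by
  simp only [sqA, Fin.sum_univ_two, g_inv hsym hid hR, A_ver hsym hid]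
  simp only [Fin.isValue, if_true, if_neg (by decide : ¬ (0 : Fin 2) = 1),
    if_neg (by decide : ¬ (1 : Fin 2) = 0), zero_mul, mul_zero, add_zero, zero_add,
    a'_inner hsym hid hR]
  field_simp
  ring

lemma imm_ver : IsImm (ver B) := by
  refine ⟨?_, fun p => ?_⟩
  · have h1 : ContDiff ℝ ∞ (fun X : E3 => B X X) := by fun_prop
    exact h1.contMDiff.comp (contMDiff_coe_sphere (n := 2))
  · apply linearIndependent_of_ne_zero_of_inner_eq_zero (𝕜 := ℝ)
    · intro i h
      have := g_ver hsym hid p i i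
      rw [g, Matrix.of_apply, h] at this
      simp at this
      linarith
    · intro i j hij
      have := g_ver hsym hid p i j
      rw [g, Matrix.of_apply, if_neg hij] at this
      exact this

lemma sphere_ver (p : S2) : ‖ver B p‖ ^ 2 = R2 := by
  rw [← real_inner_self_eq_norm_sq, ver, hB hid]
  simp only [norm_p]
  ring

end quad

/-- the polarised Veronese map, up to a factor `R` -/
noncomputable def verMap (q : ℕ) (b : Fin 5 → Amb 2 q) : E3 →L[ℝ] E3 →L[ℝ] Amb 2 q :=
  LinearMap.toContinuousBilinearMap (LinearMap.mk₂ ℝ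
    (fun X Y : E3 => (√3 / 2 * (X 0 * Y 1 + X 1 * Y 0)) • b 0 + (√3 / 2 * (X 0 * Y 2 + X 2 * Y 0)) • b 1
      + (√3 / 2 * (X 1 * Y 2 + X 2 * Y 1)) • b 2 + (√3 / 2 * (X 0 * Y 0 - X 1 * Y 1)) • b 3
      + ((1 / 2) * (X 0 * Y 0 + X 1 * Y 1 - 2 * (X 2 * Y 2))) • b 4)
    (by intro X X' Y; simp only [PiLp.add_apply]; module)
    (by intro c X Y; simp only [PiLp.smul_apply, smul_eq_mul]; module)
    (by intro X Y Y'; simp only [PiLp.add_apply]; module)
    (by intro c X Y; simp only [PiLp.smul_apply, smul_eq_mul]; module))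

section verMap

variable {q : ℕ} (b : Fin 5 → Amb 2 q)

lemma verMap_apply (X Y : E3) : verMap q b X Y =
    (√3 / 2 * (X 0 * Y 1 + X 1 * Y 0)) • b 0 + (√3 / 2 * (X 0 * Y 2 + X 2 * Y 0)) • b 1
      + (√3 / 2 * (X 1 * Y 2 + X 2 * Y 1)) • b 2 + (√3 / 2 * (X 0 * Y 0 - X 1 * Y 1)) • b 3
      + ((1 / 2) * (X 0 * Y 0 + X 1 * Y 1 - 2 * (X 2 * Y 2))) • b 4 := rfl

lemma verMap_symm (X Y : E3) : verMap q b X Y = verMap q b Y X := by
  rw [verMap_apply, verMap_apply]
  ring_nf

lemma verMap_id {R2 : ℝ} (hb : ∀ k l, inner ℝ (b k) (b l) = if k = l then R2 else 0) :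
    VerId (verMap q b) R2 := by
  intro X Y Z W
  have h3 : √3 * √3 = 3 := Real.mul_self_sqrt (by norm_num)
  have h3' : √3 ^ 2 = 3 := by rw [sq, h3]
  have hs : ∀ f : Fin (2 + 1) → ℝ, ∑ i, f i = f 0 + f 1 + f 2 := fun f => Fin.sum_univ_three f
  simp only [verMap_apply, inner_add_left, inner_add_right, inner_smul_left, inner_smul_right, hb,
    PiLp.inner_apply, hs]
  simp
  ring_nf
  rw [h3']
  ring

/-- five orthogonal vectors of length `R` -/
noncomputable def frame (q : ℕ) (hq : 2 ≤ q) (R : ℝ) (k : Fin 5) : Amb 2 q :=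
  EuclideanSpace.single (Fin.castLE (by omega) k) R

lemma frame_inner (hq : 2 ≤ q) (R : ℝ) (k l : Fin 5) :
    inner ℝ (frame q hq R k) (frame q hq R l) = if k = l then R ^ 2 else 0 := by
  rw [frame, frame, EuclideanSpace.inner_single_left]
  by_cases h : k = l
  · simp [h, sq]
  · have : ¬ (Fin.castLE (by omega : 5 ≤ 2 + q + 1) k) = Fin.castLE (by omega) l := by
      intro h2
      exact h (Fin.castLE_injective _ h2)
    simp [h, this]

end verMap

end Pool.Agent.Helper56.MCF
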