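import Mathlib
import Pool.Agent.Helper56.MCF.Ver

open Manifold Set Filter Topology Metric
open scoped ContDiff

namespace Pool.Agent.Helper56.MCF

lemma rd_pt {n q : ℕ} {M : Type} [TopologicalSpace M] [ChartedSpace (EuclideanSpace ℝ (Fin n)) M]
    (F : M → Amb n q) (p : M) : rd F p (pt p) = F p := by
  simp only [rd, pt, Function.comp]
  rw [(chartAt (EuclideanSpace ℝ (Fin n)) p).left_inv (mem_chart_source _ p)]

lemma tendsto_point {n q : ℕ} {M : Type} [TopologicalSpace M]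
    [ChartedSpace (EuclideanSpace ℝ (Fin n)) M] {G : ℝ → M → Amb n q} {l : Filter ℝ}
    {G' : M → Amb n q} (h : SmoothTendsto G l G') (p : M) :
    Tendsto (fun t => G t p) l (𝓝 (G' p)) := by
  have h1 := (h p 0).tendsto_at (a := pt p)
    ((chartAt (EuclideanSpace ℝ (Fin n)) p).map_source (mem_chart_source _ p))
  have h2 : Tendsto (fun t => (iteratedFDeriv ℝ 0 (rd (G t) p) (pt p)) (fun _ => 0)) l
      (𝓝 ((iteratedFDeriv ℝ 0 (rd G' p) (pt p)) (fun _ => 0))) := by
    have hc : Continuous fun m : ContinuousMultilinearMap ℝ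
        (fun _ : Fin 0 => EuclideanSpace ℝ (Fin n)) (Amb n q) => m (fun _ => 0) :=
      (ContinuousMultilinearMap.apply ℝ (fun _ : Fin 0 => EuclideanSpace ℝ (Fin n)) (Amb n q)
        (fun _ => 0)).continuous
    exact (hc.tendsto _).comp h1
  simpa only [iteratedFDeriv_zero_apply, rd_pt] using h2

/-- A static flow of minimal immersions. -/
lemma static_flow {n q : ℕ} {M : Type} [TopologicalSpace M]
    [ChartedSpace (EuclideanSpace ℝ (Fin n)) M] [IsManifold (𝓡 n) ∞ M] {c : ℝ} {F : M → Amb n q}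
    (h : IsImmSphere c F) (hH : ∀ p, H F p = 0) : IsFlow c F ⊤ (fun _ => F) := by
  refine ⟨by simp, rfl, ?_, fun t _ _ => ⟨h, fun x => ?_⟩⟩
  · exact (h.1.1.comp contMDiff_snd).contMDiffOn
  · rw [hH]
    exact hasDerivWithinAt_const _ _ _

/-- A minimal immersion which is not totally geodesic violates the conclusion. -/
lemma not_dichotomy {n q : ℕ} {M : Type} [TopologicalSpace M]
    [ChartedSpace (EuclideanSpace ℝ (Fin n)) M] [IsManifold (𝓡 n) ∞ M] {c : ℝ} {F₀ : M → Amb n q}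
    (h : IsImmSphere c F₀) (hH : ∀ p, H F₀ p = 0) (hA : ∃ p i j, A F₀ p i j ≠ 0) :
    ¬ Dichotomy c F₀ := by
  rintro ⟨T, F, hF, huniq, hcase⟩
  obtain ⟨hT, hFF⟩ := huniq ⊤ (fun _ => F₀) (static_flow h hH)
  rw [top_le_iff] at hT
  rcases hcase with ⟨T₀, hT₀, -⟩ | ⟨-, G, -, hG, hlim⟩
  · rw [hT] at hT₀
    exact (EReal.coe_ne_top T₀) hT₀.symm
  · have hGF : G = F₀ := by
      funext p
      have h1 := tendsto_point hlim p
      have h2 : Tendsto (fun t => F t p) atTop (𝓝 (F₀ p)) := by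
        refine tendsto_const_nhds.congr' ?_
        filter_upwards [eventually_ge_atTop (0 : ℝ)] with t ht
        rw [← hFF t ht (EReal.coe_lt_top t)]
      exact tendsto_nhds_unique h1 h2
    obtain ⟨p, i, j, hne⟩ := hA
    exact hne (hGF ▸ hG p i j)

theorem main (q : ℕ) (hq : 2 ≤ q) (c : ℝ) (hc : 0 < c) :
    ∃ F₀ : S2 → Amb 2 q, IsImmSphere c F₀ ∧ Pinched c F₀ ∧ (∀ p, H F₀ p = 0) ∧
      (∀ p, sqA F₀ p = 4 / 3 * c) ∧ IsFlow c F₀ ⊤ (fun _ => F₀) ∧ ¬ Dichotomy c F₀ := by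
  have hR : 0 < (√(1 / c)) ^ 2 := by positivity
  have hR' : (√(1 / c)) ^ 2 = 1 / c := Real.sq_sqrt (by positivity)
  set b := frame q hq (√(1 / c)) with hb
  have hsym : ∀ X Y, verMap q b X Y = verMap q b Y X := verMap_symm b
  have hid : VerId (verMap q b) ((√(1 / c)) ^ 2) := verMap_id b (frame_inner hq _)
  have himm : IsImmSphere c (ver (verMap q b)) := by
    refine ⟨imm_ver hsym hid hR, fun p => ?_⟩
    rw [sphere_ver hsym hid hR, hR']
    field_simp
  have hH := H_ver hsym hid hR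
  have hA : ∀ p, sqA (ver (verMap q b)) p = 4 / 3 * c := by
    intro p
    rw [sqA_ver hsym hid hR, hR']
    field_simp
  have hM : IsManifold (𝓡 2) ∞ S2 := IsManifold.of_le (n := ω) le_top
  refine ⟨ver (verMap q b), himm, fun p => ?_, hH, hA, static_flow himm hH, ?_⟩
  · rw [hA, hH]
    simp [alpha]
    linarith
  · apply not_dichotomy himm hH
    obtain ⟨p⟩ : Nonempty S2 := ⟨⟨EuclideanSpace.single 0 1, by simp⟩⟩
    refine ⟨p, 0, 0, ?_⟩
    rw [A_ver hsym hid]
    intro h0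
    have := a'_inner hsym hid hR p 0 0
    rw [h0, inner_zero_left] at this
    linarith

theorem connS2 : ConnectedSpace S2 := by
  apply Subtype.connectedSpace
  apply isConnected_sphere _ _ (by norm_num)
  rw [← Module.finrank_eq_rank, finrank_euclideanSpace_fin]
  norm_num

theorem not_statement (q : ℕ) (hq : 2 ≤ q) (c : ℝ) (hc : 0 < c) : ¬ Statement 2 q c := by
  intro h
  obtain ⟨F₀, h1, h2, -, -, -, h3⟩ := main q hq c hc
  have := connS2
  have : IsManifold (𝓡 2) ∞ S2 := IsManifold.of_le (n := ω) le_top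
  exact h3 (h S2 F₀ h1 h2)

end Pool.Agent.Helper56.MCF
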